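import Pool.Agent.Lib.MP_6d40c9_pr.Stmt
import Pool.Agent.Lib.MP_6d40c9_pr.Final

/-!
# The Ising spin field is a measurable function of the nested CLE(3) of its domain walls

Critical Ising model with `+` boundary condition on the squares of side `δ` contained in a bounded simply connected domain `Ω`.
`(σ, Γ)` is an arbitrary joint limit, along a sequence of meshes `δs k → 0`, of the renormalized spin field and of the
collection of all domain walls. Then for every test function `f` the random variable `σ f` is almost surely equal to a random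
variable which is measurable with respect to the loops `Γ`.

The hypotheses are: the convergence in law of the spin field (`hspin`), the convergence in law of the domain walls (`hwalls`), which
define the objects of the problem; the almost sure structure of the nested loop ensemble (`IsNested`: locally finite, disjoint,
small loops around every point); `(σ, Γ)` is a joint limit (`hjoint`). No correlation asymptotics, no crossing estimates and no
conformal invariance are assumed.
-/

set_option autoImplicit false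

namespace Pool.Agent.Results.MP_6d40c9_pr.SpinFieldOfLoops

open Pool.Agent.Lib.MP_6d40c9_pr
open Finset MeasureTheory Filter Topology TopologicalSpace

/-- **The spin field is measurable with respect to the nested loops.** -/
theorem result (Ω : Set (ℝ × ℝ)) (hopen : IsOpen Ω) (hconn : IsConnected Ω)
    (hbdd : Bornology.IsBounded Ω) (hsimply : IsConnected Ωᶜ)
    (X : Type) [MeasurableSpace X] (P : Measure X) [IsProbabilityMeasure P]
    (σ : (ℝ × ℝ → ℝ) → X → ℝ) (Γ : X → Set (NonemptyCompacts (ℝ × ℝ)))
    (hσ : ∀ f, TestFn Ω f → Measurable (σ f))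
    (hΓ : ∀ φ, LoopFn φ → Measurable fun ω => loopStat φ (Γ ω))
    (hnested : IsNested Ω P Γ)
    (hspin : ∀ (m : ℕ) (f : Fin m → ℝ × ℝ → ℝ), (∀ i, TestFn Ω (f i)) →
      ConvLaw Ω P σ Γ (𝓝[>] 0) f (Fin.elim0 : Fin 0 → LoopSp → ℝ))
    (hwalls : ∀ (n : ℕ) (φ : Fin n → LoopSp → ℝ), (∀ j, LoopFn (φ j)) →
      ConvLaw Ω P σ Γ (𝓝[>] 0) (Fin.elim0 : Fin 0 → ℝ × ℝ → ℝ) φ)
    (δs : ℕ → ℝ) (hδ : ∀ k, 0 < δs k) (hδ0 : Tendsto δs atTop (𝓝 0))
    (hjoint : ∀ (m n : ℕ) (f : Fin m → ℝ × ℝ → ℝ) (φ : Fin n → LoopSp → ℝ),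
      (∀ i, TestFn Ω (f i)) → (∀ j, LoopFn (φ j)) → ConvLaw Ω P σ Γ (map δs atTop) f φ)
    (f : ℝ × ℝ → ℝ) (hf : TestFn Ω f) :
    ∃ Y : X → ℝ, Measurable[sigmaLoops Γ] Y ∧ σ f =ᵐ[P] Y :=
  mainFinal Ω hopen hconn hbdd hsimply X P σ Γ hσ hΓ hnested hspin hwalls δs hδ hδ0 hjoint f hf

end Pool.Agent.Results.MP_6d40c9_pr.SpinFieldOfLoops
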